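import Pool.Agent.W559.Wr.Stm

/-!
# WR-CONV
-/

set_option autoImplicit false

universe u

namespace Pool.Agent.W251.Wr

open Pool.Agent.W559.Wr Pool.Agent.H920R2

section

variable {k L K : Type u} [Field k] [Field L] [Algebra k L] [Field K] [Algebra k K]

theorem locL_le {A B : Subalgebra k L} {x y : L} (hx : x ∈ A) (hy : y ∈ B) (hxy : x * y = 1)
    (h : B ≤ locL A x hx) : locL B y hy ≤ locL A x hx := by
  intro w hw
  obtain ⟨n, hn⟩ := mem_locL.mp hw
  obtain ⟨m, hm⟩ := mem_locL.mp (h hn)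
  refine mem_locL.mpr ⟨m, ?_⟩
  have h1 : x ^ m * w = x ^ n * (x ^ m * (y ^ n * w)) := by
    have : x ^ n * y ^ n = 1 := by rw [← mul_pow, hxy, one_pow]
    calc x ^ m * w = (x ^ n * y ^ n) * (x ^ m * w) := by rw [this, one_mul]
      _ = _ := by ring
  rw [h1]
  exact A.mul_mem (A.pow_mem hx n) hm

/-- the chart -/
abbrev ch (k : Type u) {L : Type u} [Field k] [Field L] [Algebra k L] {l : ℕ}
    (z : Fin (l + 1) → L) (i : Fin (l + 1)) : Subalgebra k L :=
  Algebra.adjoin k (Set.range fun n => z n / z i)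

theorem mem_ch {l : ℕ} (z : Fin (l + 1) → L) (i n : Fin (l + 1)) : z n / z i ∈ ch k z i :=
  Algebra.subset_adjoin ⟨n, rfl⟩

theorem ch_le {l : ℕ} (z : Fin (l + 1) → L) (hz : ∀ i, z i ≠ 0) (i j : Fin (l + 1)) :
    ch k z j ≤ locL (ch k z i) (z j / z i) (mem_ch z i j) := by
  refine Algebra.adjoin_le ?_
  rintro _ ⟨n, rfl⟩
  refine mem_locL.mpr ⟨1, ?_⟩
  have h1 : (z j / z i) ^ 1 * (z n / z j) = z n / z i := by
    have := hz i
    have := hz j
    field_simp
  rw [h1]
  exact mem_ch z i n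

theorem locL_eq {l : ℕ} (z : Fin (l + 1) → L) (hz : ∀ i, z i ≠ 0) (i j : Fin (l + 1)) :
    locL (ch k z j) (z i / z j) (mem_ch z j i) = locL (ch k z i) (z j / z i) (mem_ch z i j) := by
  have h1 : z j / z i * (z i / z j) = 1 := by
    have := hz i
    have := hz j
    field_simp
  have h2 : z i / z j * (z j / z i) = 1 := by rw [mul_comm]; exact h1
  exact le_antisymm (locL_le _ _ h1 (ch_le z hz i j)) (locL_le _ _ h2 (ch_le z hz j i))

theorem smooth_all (ι : L →ₐ[k] K) {l : ℕ} (z : Fin (l + 1) → L) (hz : ∀ i, z i ≠ 0)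
    (J : Set (Fin (l + 1)))
    (cv : ∀ V : ValuationSubring K, (∀ c : k, algebraMap k K c ∈ V) →
      ∃ j ∈ J, ∀ i, ι (z i) / ι (z j) ∈ V)
    (sm : ∀ j ∈ J, Algebra.Smooth k (ch k z j)) (i : Fin (l + 1)) :
    Algebra.Smooth k (ch k z i) := by
  apply smooth_of_locL
  intro Q hQ
  -- a valuation ring which contains the chart and whose maximal ideal contains `Q`
  let A : Subring K := ((ch k z i).map ι).toSubring
  let e : ch k z i ≃+* A :=
    ((Subalgebra.equivMapOfInjective (ch k z i) ι ι.injective) : _ ≃+* ((ch k z i).map ι))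
  let I : Ideal A := Q.comap (e.symm : A →+* ch k z i)
  have hI : I ≠ ⊤ := by
    have : I.IsPrime := Ideal.IsPrime.comap _
    exact this.ne_top
  obtain ⟨V, hV, hV2⟩ := Ideal.image_subset_nonunits_valuationSubring I hI
  have hVk : ∀ c : k, algebraMap k K c ∈ V := by
    intro c
    apply hV
    exact ⟨algebraMap k L c, Subalgebra.algebraMap_mem _ c, ι.commutes c⟩
  obtain ⟨j, hj, hjV⟩ := cv V hVk
  refine ⟨z j / z i, mem_ch z i j, ?_, ?_⟩
  · intro hxQ
    have h1 : e ⟨z j / z i, mem_ch z i j⟩ ∈ I := by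
      rw [Ideal.mem_comap]
      change e.symm (e ⟨z j / z i, mem_ch z i j⟩) ∈ Q
      rw [e.symm_apply_apply]
      exact hxQ
    have h2 : ι (z j / z i) ∈ V.nonunits := hV2 ⟨e ⟨z j / z i, mem_ch z i j⟩, h1, rfl⟩
    rw [ValuationSubring.mem_nonunits_iff_exists_mem_maximalIdeal] at h2
    obtain ⟨hx', h3⟩ := h2
    rw [IsLocalRing.mem_maximalIdeal, mem_nonunits_iff] at h3
    apply h3
    rw [isUnit_iff_exists_inv]
    refine ⟨⟨ι (z i) / ι (z j), hjV i⟩, ?_⟩
    apply Subtype.ext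
    change ι (z j / z i) * (ι (z i) / ι (z j)) = 1
    have h4 : ι (z i) ≠ 0 := (map_ne_zero ι).2 (hz i)
    have h5 : ι (z j) ≠ 0 := (map_ne_zero ι).2 (hz j)
    rw [map_div₀]
    field_simp
  · rw [← locL_eq z hz i j]
    exact smooth_locL _ (sm j hj) _ _ (div_ne_zero (hz i) (hz j))

end

theorem conv : ConvStm.{u} := by
  intro k K _ _ _ L 𝒜 W hW I _ z J h
  classical
  obtain ⟨j₀, hj₀, -⟩ := h.cv ⊤ (fun _ => trivial)
  have hne : Nonempty {i // z i ≠ 0} := ⟨⟨j₀, h.z0 j₀ hj₀⟩⟩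
  have : Fintype {i // z i ≠ 0} := Fintype.ofFinite _
  obtain ⟨l, hl⟩ : ∃ l, Fintype.card {i // z i ≠ 0} = l + 1 :=
    ⟨Fintype.card {i // z i ≠ 0} - 1, by have := Fintype.card_pos_iff.mpr hne; omega⟩
  let e : Fin (l + 1) ≃ {i // z i ≠ 0} := (Fintype.equivFinOfCardEq hl).symm
  let w : Fin (l + 1) → L := fun n => ⟨z (e n), h.zK _⟩
  have hw : ∀ n, w n ≠ 0 := fun n h0 => (e n).2 (congrArg Subtype.val h0)
  have hwval : ∀ n, ((w n : L) : K) = z (e n) := fun n => rfl
  -- the charts in `K`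
  have hmap : ∀ m, (ch k w m).map L.val = Algebra.adjoin k (Set.range fun i => z i / z (e m)) := by
    intro m
    unfold ch
    rw [AlgHom.map_adjoin]
    apply le_antisymm
    · refine Algebra.adjoin_mono ?_
      rintro _ ⟨_, ⟨n, rfl⟩, rfl⟩
      exact ⟨e n, rfl⟩
    · refine Algebra.adjoin_le ?_
      rintro _ ⟨i, rfl⟩
      by_cases hi : z i = 0
      · simp only [hi, zero_div]
        exact Subalgebra.zero_mem _
      · refine Algebra.subset_adjoin ⟨w (e.symm ⟨i, hi⟩) / w m, ⟨_, rfl⟩, ?_⟩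
        change ((w (e.symm ⟨i, hi⟩) : L) : K) / ((w m : L) : K) = _
        rw [hwval, hwval, Equiv.apply_symm_apply]
  refine ⟨l, w, hw, ?_, ?_⟩
  · intro i
    refine smooth_all L.val w hw {m | (e m : I) ∈ J} ?_ ?_ i
    · intro V hV
      obtain ⟨j, hj, hjV⟩ := h.cv V hV
      refine ⟨e.symm ⟨j, h.z0 j hj⟩, ?_, fun n => ?_⟩
      · change ((e (e.symm ⟨j, h.z0 j hj⟩) : {i // z i ≠ 0}) : I) ∈ J
        rw [Equiv.apply_symm_apply]
        exact hj
      · change ((w n : L) : K) / ((w (e.symm ⟨j, h.z0 j hj⟩) : L) : K) ∈ V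
        rw [hwval, hwval, Equiv.apply_symm_apply]
        exact hjV _
    · intro m hm
      have h1 := h.sm (e m) hm
      have e2 : ch k w m ≃ₐ[k] Algebra.adjoin k (Set.range fun i => z i / z (e m)) :=
        (Subalgebra.equivMapOfInjective (ch k w m) L.val L.val.injective).trans
          (Subalgebra.equivOfEq _ _ (hmap m))
      exact Algebra.Smooth.of_equiv e2.symm
  · rw [eq_top_iff]
    intro x _
    obtain ⟨a, ha⟩ := h.aa j₀ hj₀
    obtain ⟨y, hy, y', hy', hy0, hxy⟩ := hW a x x.2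
    set m := e.symm ⟨j₀, h.z0 j₀ hj₀⟩ with hm
    have hem : (e m : I) = j₀ := by rw [hm, Equiv.apply_symm_apply]
    have hle : ch k w m ≤
        (IntermediateField.adjoin k (Set.range fun j => w j / w 0)).toSubalgebra := by
      refine Algebra.adjoin_le ?_
      rintro _ ⟨n, rfl⟩
      have h1 : w n / w m = (w n / w 0) / (w m / w 0) := by
        have := hw 0
        have := hw m
        field_simp
      change w n / w m ∈ IntermediateField.adjoin k (Set.range fun j => w j / w 0)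
      rw [h1]
      exact div_mem (IntermediateField.subset_adjoin _ _ ⟨n, rfl⟩)
        (IntermediateField.subset_adjoin _ _ ⟨m, rfl⟩)
    have hlift : ∀ y ∈ W a, ∃ v ∈ IntermediateField.adjoin k (Set.range fun j => w j / w 0),
        (v : K) = y := by
      intro y hy
      have h2 := ha hy
      rw [← hem, ← hmap m] at h2
      obtain ⟨v, hv, hvy⟩ := h2
      exact ⟨v, hle hv, hvy⟩
    obtain ⟨v, hv, hvy⟩ := hlift y hy
    obtain ⟨v', hv', hvy'⟩ := hlift y' hy'
    have h3 : x = v / v' := by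
      apply Subtype.ext
      rw [hxy, ← hvy, ← hvy']
      rfl
    rw [h3]
    exact div_mem hv hv'

end Pool.Agent.W251.Wr
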